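import Pool.Agent.Helper13.ML.DefsC
import Pool.Agent.Helper5.HG.BTL
import Pool.Agent.Helper21.HG.Mert

/-!
# Project ML (MP_e66f84_ag), block BTL: Brun-Titchmarsh in a number field with prescribed `l`-th power residue symbols

The proof of `Pool.Agent.HG.btl` (helper5) with the elements `g` of the residue field with
`g ^ ((nm q - 1) / l) = eta q` in place of the squares: they are roots of a polynomial of degree `(nm q - 1) / l`.
-/

set_option autoImplicit false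

namespace Pool.Agent.ML

open NumberField IsDedekindDomain Finset
open Pool.Agent.HG (Pr nm card_quot5 exists_B5 coord5 par5 box5 lam5 prods5 sieve5 count5 not_mem5 eighth5)

section

/-- the number of the non-zero classes with a prescribed `l`-th power residue symbol -/
theorem pow_count32 {L : Type} [Field L] [NumberField L] (l : ℕ) (hl : l.Prime) (q : Pr L) (hq : l ∣ nm q - 1)
    (η : 𝓞 L ⧸ q.asIdeal) (G : Finset (𝓞 L ⧸ q.asIdeal))
    (hG : ∀ g ∈ G, g ≠ 0 ∧ g ^ ((nm q - 1) / l) = η) : (G.card : ℝ) ≤ nm q / l := by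
  classical
  obtain ⟨h1, h2⟩ := card_quot5 q
  have : q.asIdeal.IsMaximal := q.isMaximal
  let _ := Ideal.Quotient.field q.asIdeal
  have hl0 : 0 < l := hl.pos
  have hlR : (0 : ℝ) < l := by exact_mod_cast hl0
  obtain ⟨m, hm⟩ : ∃ m, m = (nm q - 1) / l := ⟨_, rfl⟩
  rw [← hm] at hG
  have hm1 : l * m = nm q - 1 := by rw [hm]; exact Nat.mul_div_cancel' hq
  have hm0 : 0 < m := by
    rcases Nat.eq_zero_or_pos m with h | h
    · rw [h, mul_zero] at hm1
      omega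
    · exact h
  have h3 : G ⊆ (Polynomial.nthRoots m η).toFinset := by
    intro g hg
    rw [Multiset.mem_toFinset, Polynomial.mem_nthRoots hm0]
    exact (hG g hg).2
  have h4 : G.card ≤ m :=
    (card_le_card h3).trans ((Multiset.toFinset_card_le _).trans (Polynomial.card_nthRoots m η))
  rw [le_div_iff₀ hlR]
  have h5 : G.card * l ≤ nm q := by
    have h6 : G.card * l ≤ m * l := Nat.mul_le_mul_right l h4
    have h7 : m * l = l * m := mul_comm _ _
    omega
  exact_mod_cast h5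

/-- **BLOCK BTL**: Brun-Titchmarsh in a number field, with prescribed power residue symbols -/
theorem btl : StmtBTL := by
  classical
  intro l hl L _ _ K hK ε hε
  obtain ⟨B, hB⟩ := exists_B5 L
  obtain ⟨C₀, hC₀⟩ := (Pool.Agent.Helper21.HG.mert L B hB).2
  obtain ⟨C, hC⟩ : ∃ C, C = max C₀ 0 := ⟨_, rfl⟩
  have hCB : ∀ x : ℕ, 2 ≤ x → |∑ v ∈ B x, (1 : ℝ) / nm v - Real.log (Real.log x)| ≤ C :=
    fun x hx => (hC₀ x hx).trans (by rw [hC]; exact le_max_left _ _)
  have C0 : 0 ≤ C := by rw [hC]; exact le_max_right _ _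
  obtain ⟨ι, _, b, c, hc, hι, hb⟩ := coord5 L
  obtain ⟨D, hD⟩ : ∃ D, D = Module.finrank ℚ L := ⟨_, rfl⟩
  have hD1 : 1 ≤ D := by rw [hD]; exact Module.finrank_pos
  rw [← hD] at hι
  obtain ⟨h₀, hh₀⟩ := par5 (K := K) hD1 C0 (lt_min hε one_pos) (min_le_right ε 1)
  refine ⟨(3 * c * K) ^ D * (Real.exp (2 * C + 2) + 2), 4 * D, max h₀ 1, by positivity, ?_⟩
  intro h hh MM hodd hA η T hT
  rw [← hD] at hT
  have hh1 : 1 ≤ h := (le_max_right _ _).trans hh
  obtain ⟨z, y, r, P⟩ := hh₀ h ((le_max_left _ _).trans hh)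
  obtain ⟨n, hn1, hn2, hn3⟩ := box5 hD1 hc hK hh1
  obtain ⟨N, hN⟩ : ∃ N, N = 2 * n + 1 := ⟨_, rfl⟩
  rw [← hN] at hn2 hn3
  simp only [← hN] at hn1
  have hN0 : (0 : ℝ) < N := by
    rw [hN]
    positivity
  -- the product of the norms of the primes of `MM`
  have hpos : ∀ q : Pr L, 0 < nm q := fun q => by
    have := (card_quot5 q).2
    omega
  have hMM1 : 1 ≤ ∏ q ∈ MM, nm q := Nat.one_le_iff_ne_zero.2 (prod_ne_zero_iff.2 fun q _ => (hpos q).ne')
  have hMMh : ∏ q ∈ MM, nm q ≤ h :=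
    (Nat.le_self_pow (by omega) _).trans hA
  have hMMr : ((∏ q ∈ MM, nm q : ℕ) : ℝ) ≤ (h : ℝ) ^ ((1 : ℝ) / (4 * D)) := by
    have h1 : ((∏ q ∈ MM, nm q : ℕ) : ℝ) ^ (4 * D) ≤ h := by exact_mod_cast hA
    have hD0 : (0 : ℝ) < D := by exact_mod_cast hD1
    calc ((∏ q ∈ MM, nm q : ℕ) : ℝ) = (((∏ q ∈ MM, nm q : ℕ) : ℝ) ^ (4 * D)) ^ ((1 : ℝ) / (4 * D)) := by
          rw [← Real.rpow_natCast, ← Real.rpow_mul (by positivity)]
          push_cast
          rw [mul_one_div_cancel (by positivity), Real.rpow_one]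
      _ ≤ _ := Real.rpow_le_rpow (by positivity) h1 (by positivity)
  -- the primes of the sieve
  obtain ⟨Q, hQd⟩ : ∃ Q, Q = (B y \ B z) \ MM := ⟨_, rfl⟩
  have hQ : ∀ q, q ∈ Q ↔ z < nm q ∧ nm q ≤ y ∧ q ∉ MM := by
    intro q
    rw [hQd, mem_sdiff, mem_sdiff, hB, hB, not_le]
    tauto
  obtain ⟨l1, l2⟩ := lam5 hB hCB P.z2 P.zy MM Q hMMh P.mz hQ
  have l3 : ∑ v ∈ Q, (1 : ℝ) / nm v ≤ Real.log (Real.log h) + 2 * C := by linarith [P.up]
  obtain ⟨p1, p2, p3⟩ := prods5 Q (fun v => (1 : ℝ) / nm v) (fun q _ => by positivity)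
    (fun q _ => by
      rw [div_le_one (by exact_mod_cast hpos q)]
      exact_mod_cast hpos q) l1 l3
  -- the classes
  have hfin : ∀ q : Pr L, Finite (𝓞 L ⧸ q.asIdeal) := fun q => by
    apply Nat.finite_of_card_ne_zero
    rw [(card_quot5 q).1]
    exact (hpos q).ne'
  obtain ⟨G, hG⟩ : ∃ G : (q : Pr L) → Finset (𝓞 L ⧸ q.asIdeal),
      ∀ q g, g ∈ G q ↔ (g ≠ 0 ∧ g ^ ((nm q - 1) / l) = η q) :=
    ⟨fun q => (Set.toFinite {g : 𝓞 L ⧸ q.asIdeal | g ≠ 0 ∧ g ^ ((nm q - 1) / l) = η q}).toFinset,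
      fun q g => by simp⟩
  obtain ⟨γ, hγ⟩ : ∃ γ : ℝ, γ = (∏ q ∈ MM, ((G q).card : ℝ) / nm q) * N ^ D := ⟨_, rfl⟩
  have hγ0 : 0 ≤ γ := by rw [hγ]; positivity
  have hγ1 : γ ≤ (1 / l) ^ MM.card * ((3 * c * K) ^ D * h) := by
    rw [hγ]
    refine mul_le_mul ?_ hn3 (by positivity) (by positivity)
    calc ∏ q ∈ MM, ((G q).card : ℝ) / nm q ≤ ∏ _q ∈ MM, (1 / l : ℝ) := by
          refine prod_le_prod (fun q _ => by positivity) fun q hq => ?_
          have h1 := pow_count32 l hl q (hodd q hq) (η q) (G q) fun g hg => (hG q g).1 hg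
          have h2 : (0 : ℝ) < nm q := by exact_mod_cast hpos q
          have h3 : (0 : ℝ) < l := by exact_mod_cast hl.pos
          rw [div_le_iff₀ h2]
          refine h1.trans (le_of_eq ?_)
          ring
      _ = (1 / l) ^ MM.card := by rw [prod_const]
  -- the box and the sieve
  obtain ⟨W, hW⟩ : ∃ W : Finset (ι → ℤ), ∀ v, v ∈ W ↔ (∀ i, v i ∈ Finset.Ico (-(n : ℤ)) (-(n : ℤ) + N)) ∧
      ∀ q ∈ MM, Ideal.Quotient.mk q.asIdeal (∑ i, v i • b i) ∈ G q :=
    ⟨(Fintype.piFinset fun _ : ι => Finset.Ico (-(n : ℤ)) (-(n : ℤ) + N)).filter fun v =>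
      ∀ q ∈ MM, Ideal.Quotient.mk q.asIdeal (∑ i, v i • b i) ∈ G q, fun v => by
        rw [mem_filter, Fintype.mem_piFinset]⟩
  obtain ⟨M₀, hM₀⟩ : ∃ M₀, M₀ = (h : ℝ) ^ ((1 : ℝ) / (4 * D)) * y ^ (2 * r) := ⟨_, rfl⟩
  have hM₀0 : 0 ≤ M₀ := by rw [hM₀]; positivity
  obtain ⟨er1, er2⟩ := P.err M₀ N hN0 hM₀.le hn2
  have hsieve := sieve5 Q W (fun q v => (∑ i, v i • b i) ∈ q.asIdeal) (fun v => (1 : ℝ) / nm v)
    (fun q _ => by positivity) r hγ0 (show 0 ≤ D * 2 ^ D * M₀ / N by positivity) (by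
      intro S hS hSr
      have hS1 : ∏ q ∈ S, nm q ≤ y ^ (2 * r) := by
        calc ∏ q ∈ S, nm q ≤ ∏ _q ∈ S, y := prod_le_prod' fun q hq => ((hQ q).1 (hS hq)).2.1
          _ = y ^ S.card := by rw [prod_const]
          _ ≤ y ^ (2 * r) := Nat.pow_le_pow_right (by linarith [P.z2, P.zy]) hSr
      have hSM : (((∏ q ∈ S, nm q) * ∏ q ∈ MM, nm q : ℕ) : ℝ) ≤ M₀ := by
        rw [hM₀, mul_comm]
        push_cast
        refine mul_le_mul ?_ ?_ (by positivity) (by positivity)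
        · exact_mod_cast hMMr
        · exact_mod_cast hS1
      have h1 := count5 b (-(n : ℤ)) N S MM
        (disjoint_left.2 fun q hq => ((hQ q).1 (hS hq)).2.2) G
        (by exact_mod_cast hSM.trans er1)
        (W.filter fun v => ∀ q ∈ S, (∑ i, v i • b i) ∈ q.asIdeal) (fun v => by
          rw [mem_filter, hW, and_assoc])
      rw [hι, ← hγ] at h1
      refine h1.trans (mul_le_mul_of_nonneg_left ?_ (by positivity))
      push_cast at hSM
      gcongr)
  -- the elements of `T`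
  have hT1 : T.card ≤ (W.filter fun v => ∀ q ∈ Q, ¬ (∑ i, v i • b i) ∈ q.asIdeal).card := by
    refine card_le_card_of_injOn (fun x i => b.repr x i) ?_ ?_
    · intro x hx
      have hx' := hT x hx
      obtain ⟨x1, ⟨a, l1, hl1, hhl, ha, haK, hnorm⟩, x3⟩ := hx'
      have e1 : ∑ i, b.repr x i • b i = x := b.sum_repr x
      rw [mem_coe, mem_filter, hW]
      simp only [e1]
      refine ⟨⟨fun i => hn1 _ (hb x _ x1 i), fun q hq => ?_⟩, fun q hq => ?_⟩
      · rw [hG]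
        obtain ⟨x4, x5⟩ := x3 q hq
        exact ⟨fun h1 => x4 (Ideal.Quotient.eq_zero_iff_mem.1 h1), x5⟩
      · obtain ⟨q1, q2, _⟩ := (hQ q).1 hq
        refine not_mem5 hl1 ha hnorm q ?_ ?_
        · have h1 : (a : ℝ) < z := lt_of_le_of_lt haK P.Kz
          have h2 : a < z := by exact_mod_cast h1
          omega
        · have h1 := P.yh
          have h2 : (y : ℝ) ^ 2 < (l1 : ℝ) ^ 2 := lt_of_lt_of_le h1 (by exact_mod_cast hhl)
          have h3 : y < l1 := by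
            have h4 : (y : ℝ) < l1 := lt_of_pow_lt_pow_left₀ 2 (by positivity) h2
            exact_mod_cast h4
          omega
    · intro x _ x' _ hxx
      have h1 : b.repr x = b.repr x' := Finsupp.ext fun i => congrFun hxx i
      exact b.repr.injective h1
  -- the end
  have t1 := P.t1
  have hE : 0 < 1 / Real.log h ^ (1 - min ε 1) := by
    have : 0 < Real.log h := by linarith
    positivity
  have hfinal : ∏ q ∈ Q, (1 - (1 : ℝ) / nm q) + (1 / 8) ^ (2 * r + 1) * ∏ q ∈ Q, (1 + 8 * ((1 : ℝ) / nm q)) +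
        (D * 2 ^ D * M₀ / N) * ∏ q ∈ Q, (1 + (1 : ℝ) / nm q) ≤
      (Real.exp (2 * C + 2) + 2) * (1 / Real.log h ^ (1 - min ε 1)) := by
    have f1 := p1.trans P.main
    have f2 : (1 / 8 : ℝ) ^ (2 * r + 1) * ∏ q ∈ Q, (1 + 8 * ((1 : ℝ) / nm q)) ≤
        1 / Real.log h ^ (1 - min ε 1) := by
      refine le_trans (mul_le_mul (eighth5 r) p2 ?_ (Real.exp_pos _).le) P.ran
      exact prod_nonneg fun q _ => by positivity
    have f3 : (D * 2 ^ D * M₀ / N) * ∏ q ∈ Q, (1 + (1 : ℝ) / nm q) ≤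
        1 / Real.log h ^ (1 - min ε 1) :=
      (mul_le_mul_of_nonneg_left p3 (by positivity)).trans er2
    linarith
  have hmin : 1 / Real.log h ^ (1 - min ε 1) ≤ 1 / Real.log h ^ (1 - ε) := by
    apply one_div_le_one_div_of_le
    · have : 0 < Real.log h := by linarith
      positivity
    · exact Real.rpow_le_rpow_of_exponent_le t1 (by linarith [min_le_left ε 1])
  calc (T.card : ℝ) ≤ ((W.filter fun v => ∀ q ∈ Q, ¬ (∑ i, v i • b i) ∈ q.asIdeal).card : ℝ) := by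
        exact_mod_cast hT1
    _ ≤ γ * ((Real.exp (2 * C + 2) + 2) * (1 / Real.log h ^ (1 - ε))) := by
        refine hsieve.trans (mul_le_mul_of_nonneg_left (hfinal.trans ?_) hγ0)
        exact mul_le_mul_of_nonneg_left hmin (by positivity)
    _ ≤ ((1 / l) ^ MM.card * ((3 * c * K) ^ D * h)) *
        ((Real.exp (2 * C + 2) + 2) * (1 / Real.log h ^ (1 - ε))) := by
        refine mul_le_mul_of_nonneg_right hγ1 ?_
        have : 0 < Real.log h := by linarith
        positivity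
    _ = (3 * c * K) ^ D * (Real.exp (2 * C + 2) + 2) * (1 / l) ^ MM.card *
        (h / Real.log h ^ (1 - ε)) := by ring

end

end Pool.Agent.ML
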